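import Pool.Agent.N361.CV.Def

/-!
# The edge isoperimetric inequality in the cube

The proof is that of `Pool.Agent.H637R3.UC.Iso`, without the assumption that the ground type is finite.
-/

set_option autoImplicit false

namespace Pool.Agent.N361.CV

open Finset Real

variable {α : Type*} [DecidableEq α]

theorem entropy_ge {p : ℝ} (h0 : 0 ≤ p) (h1 : p ≤ 1 / 2) : 2 * p * log 2 ≤ binEntropy p := by
  have hc := Real.strictConcave_binEntropy.concaveOn
  have h := hc.2 (show (0 : ℝ) ∈ Set.Icc (0 : ℝ) 1 by constructor <;> norm_num)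
    (show (2⁻¹ : ℝ) ∈ Set.Icc (0 : ℝ) 1 by constructor <;> norm_num)
    (show (0 : ℝ) ≤ 1 - 2 * p by linarith) (show (0 : ℝ) ≤ 2 * p by linarith)
    (by ring)
  simp only [smul_eq_mul, Real.binEntropy_zero, Real.binEntropy_two_inv, mul_zero, zero_add] at h
  have h2 : 2 * p * 2⁻¹ = p := by ring
  rwa [h2] at h

theorem log_ineq_aux {a b : ℝ} (hb : 0 ≤ b) (hba : b ≤ a) :
    a * log a + b * log b + 2 * log 2 * b ≤ (a + b) * log (a + b) := by
  rcases hb.eq_or_lt with h | h
  · rw [← h]; simp
  · have ha : 0 < a := lt_of_lt_of_le h hba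
    have hs : 0 < a + b := by linarith
    have hp0 : 0 ≤ b / (a + b) := by positivity
    have hp1 : b / (a + b) ≤ 1 / 2 := by
      rw [div_le_iff₀ hs]; linarith
    have h2 := entropy_ge hp0 hp1
    have h3 : 1 - b / (a + b) = a / (a + b) := by field_simp; ring
    rw [Real.binEntropy, h3, inv_div, inv_div, Real.log_div hs.ne' h.ne',
      Real.log_div hs.ne' ha.ne'] at h2
    have h4 := mul_le_mul_of_nonneg_left h2 hs.le
    have h5 : (a + b) * (2 * (b / (a + b)) * log 2) = 2 * log 2 * b := by
      field_simp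
    have h6 : (a + b) * (b / (a + b) * (log (a + b) - log b) +
        a / (a + b) * (log (a + b) - log a)) =
        (a + b) * log (a + b) - a * log a - b * log b := by
      field_simp
      ring
    rw [h5, h6] at h4
    linarith

theorem log_ineq {a b : ℝ} (ha : 0 ≤ a) (hb : 0 ≤ b) :
    a * log a + b * log b + 2 * log 2 * min a b ≤ (a + b) * log (a + b) := by
  rcases le_total b a with h | h
  · rw [min_eq_right h]; exact log_ineq_aux hb h
  · rw [min_eq_left h]
    have := log_ineq_aux ha h
    rw [add_comm b a] at this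
    linarith

/-- inner edges in direction `l` -/
def ie (G : Finset (Finset α)) (l : α) : ℕ := (G.filter (fun P => l ∉ P ∧ insert l P ∈ G)).card

theorem ie_le_left (G : Finset (Finset α)) (l : α) :
    ie G l ≤ (G.filter (fun P => l ∉ P)).card := by
  unfold ie
  refine Finset.card_le_card ?_
  intro P hP
  rw [Finset.mem_filter] at *
  exact ⟨hP.1, hP.2.1⟩

theorem ie_le_right (G : Finset (Finset α)) (l : α) :
    ie G l ≤ (G.filter (fun P => l ∈ P)).card := by
  unfold ie
  refine Finset.card_le_card_of_injOn (fun P => insert l P) ?_ ?_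
  · intro P hP
    simp at hP ⊢
    exact hP.2.2
  · intro P hP Q hQ h
    simp at hP hQ
    have h5 := congrArg (fun s => Finset.erase s l) h
    simpa [Finset.erase_insert hP.2.1, Finset.erase_insert hQ.2.1] using h5

theorem ie_split (G : Finset (Finset α)) (t l : α) (h : l ≠ t) :
    ie G l = ie (G.filter (fun P => t ∉ P)) l + ie (G.filter (fun P => t ∈ P)) l := by
  unfold ie
  rw [← Finset.card_filter_add_card_filter_not (s := G.filter (fun P => l ∉ P ∧ insert l P ∈ G))
    (fun P => t ∉ P)]
  congr 1
  · congr 1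
    ext P
    simp only [Finset.mem_filter, Finset.mem_insert]
    constructor
    · rintro ⟨⟨h1, h2, h3⟩, h4⟩
      exact ⟨⟨h1, h4⟩, h2, h3, by rintro (h5 | h5); exacts [h h5.symm, h4 h5]⟩
    · rintro ⟨⟨h1, h4⟩, h2, h3, _⟩
      exact ⟨⟨h1, h2, h3⟩, h4⟩
  · congr 1
    ext P
    simp only [Finset.mem_filter, Finset.mem_insert, not_not]
    constructor
    · rintro ⟨⟨h1, h2, h3⟩, h4⟩
      exact ⟨⟨h1, h4⟩, h2, h3, Or.inr h4⟩
    · rintro ⟨⟨h1, h4⟩, h2, h3, _⟩
      exact ⟨⟨h1, h2, h3⟩, h4⟩

theorem card_split (F : Finset (Finset α)) (i : α) :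
    ((F.filter (fun P => i ∉ P)).card : ℝ) + (F.filter (fun P => i ∈ P)).card = F.card := by
  have h := Finset.card_filter_add_card_filter_not (s := F) (fun P => i ∉ P)
  simp only [not_not] at h
  exact_mod_cast h

theorem iso (T : Finset α) : ∀ G : Finset (Finset α),
    2 * log 2 * ((∑ l ∈ T, ie G l : ℕ) : ℝ) ≤ G.card * log G.card := by
  induction T using Finset.induction_on with
  | empty =>
    intro G
    simp
    rcases Nat.eq_zero_or_pos G.card with h | h
    · simp [h]
    · have h1 : (1 : ℝ) ≤ G.card := by exact_mod_cast h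
      have := Real.log_nonneg h1
      positivity
  | insert t T ht ih =>
    intro G
    rw [Finset.sum_insert ht]
    have h1 : ∑ l ∈ T, ie G l = ∑ l ∈ T, ie (G.filter (fun P => t ∉ P)) l +
        ∑ l ∈ T, ie (G.filter (fun P => t ∈ P)) l := by
      rw [← Finset.sum_add_distrib]
      refine Finset.sum_congr rfl (fun l hl => ie_split G t l ?_)
      rintro rfl
      exact ht hl
    have h2 := ih (G.filter (fun P => t ∉ P))
    have h3 := ih (G.filter (fun P => t ∈ P))
    have h4 : (ie G t : ℝ) ≤ min ((G.filter (fun P => t ∉ P)).card : ℝ)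
        ((G.filter (fun P => t ∈ P)).card : ℝ) := by
      apply le_min
      · exact_mod_cast ie_le_left G t
      · exact_mod_cast ie_le_right G t
    have h5 := log_ineq (a := ((G.filter (fun P => t ∉ P)).card : ℝ))
      (b := ((G.filter (fun P => t ∈ P)).card : ℝ)) (Nat.cast_nonneg _) (Nat.cast_nonneg _)
    rw [card_split] at h5
    rw [h1]
    push_cast at *
    have hl2 : 0 < log 2 := Real.log_pos (by norm_num)
    have h6 := mul_le_mul_of_nonneg_left h4 (show (0 : ℝ) ≤ 2 * log 2 by positivity)
    linarith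

end Pool.Agent.N361.CV
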