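import Pool.Agent.N361.CV.Def
import Pool.Agent.N361.CV.Iso

/-!
# The signed weight of a union-closed family and its edge boundary
-/

set_option autoImplicit false

namespace Pool.Agent.N361.CV

open Finset Real

variable {α : Type*} [DecidableEq α]

/-- the signed weight -/
def wt (N : Finset α) (L : Finset (Finset α)) : ℤ := ∑ R ∈ L, (2 * (R.card : ℤ) - N.card)

/-- the pairs `R ∈ L`, `insert i R ∉ L` -/
def up (L : Finset (Finset α)) (i : α) : ℕ := (L.filter (fun R => i ∉ R ∧ insert i R ∉ L)).card

/-- the sets outside `L` that contain a member of `L` -/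
def gap (N : Finset α) (L : Finset (Finset α)) : Finset (Finset α) :=
  N.powerset.filter (fun S => S ∉ L ∧ ∃ R ∈ L, R ⊆ S)

/-- the up-closure of `L` -/
def upc (N : Finset α) (L : Finset (Finset α)) : Finset (Finset α) :=
  N.powerset.filter (fun S => ∃ R ∈ L, R ⊆ S)

lemma card_notMem (L : Finset (Finset α)) (i : α) :
    (L.filter (fun R => i ∉ R)).card = ie L i + up L i := by
  unfold ie up
  rw [← Finset.card_filter_add_card_filter_not (s := L.filter (fun R => i ∉ R))
    (fun R => insert i R ∈ L), filter_filter, filter_filter]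

lemma card_mem_notMem (L : Finset (Finset α)) (i : α) :
    (L.filter (fun R => i ∈ R)).card + (L.filter (fun R => i ∉ R)).card = L.card :=
  Finset.card_filter_add_card_filter_not (s := L) (fun R => i ∈ R)

lemma wt_eq (N : Finset α) (L : Finset (Finset α)) (hL : ∀ R ∈ L, R ⊆ N) :
    wt N L = N.card * L.card - 2 * (∑ i ∈ N, ie L i : ℕ) - 2 * (∑ i ∈ N, up L i : ℕ) := by
  have h1 : ∑ R ∈ L, R.card = ∑ i ∈ N, (L.filter (fun R => i ∈ R)).card := by
    have : ∀ R ∈ L, R.card = ∑ i ∈ N, if i ∈ R then 1 else 0 := by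
      intro R hR
      rw [← card_filter, filter_mem_eq_inter, inter_eq_right.2 (hL R hR)]
    rw [sum_congr rfl this, sum_comm]
    exact sum_congr rfl fun i _ => (card_filter _ _).symm
  have h2 : wt N L = 2 * ((∑ R ∈ L, R.card : ℕ) : ℤ) - L.card * N.card := by
    unfold wt
    rw [sum_sub_distrib, ← mul_sum]
    push_cast
    simp
  have h3 : ∀ i ∈ N, ((L.filter (fun R => i ∈ R)).card : ℤ) = L.card - ie L i - up L i := by
    intro i _
    have e1 := card_mem_notMem L i
    have e2 := card_notMem L i
    omega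
  rw [h2, h1]
  push_cast
  rw [sum_congr rfl h3]
  simp only [sum_sub_distrib, sum_const, nsmul_eq_mul]
  ring

lemma sum_up_le (N : Finset α) (L : Finset (Finset α)) (hL : ∀ R ∈ L, R ⊆ N) (hU : UC L) :
    ∑ i ∈ N, up L i ≤ (gap N L).card := by
  have h1 : ∑ i ∈ N, up L i =
      (N.sigma (fun i => L.filter (fun R => i ∉ R ∧ insert i R ∉ L))).card := by
    rw [card_sigma]; rfl
  rw [h1]
  refine card_le_card_of_injOn (fun p => insert p.1 p.2) ?_ ?_
  · rintro ⟨i, R⟩ h
    simp only [coe_sigma, Set.mem_sigma_iff, mem_coe, mem_filter] at h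
    obtain ⟨hi, hR, hn, hI⟩ := h
    simp only [gap, coe_filter, mem_powerset, Set.mem_ofPred_eq]
    exact ⟨insert_subset hi (hL R hR), hI, R, hR, subset_insert _ _⟩
  · rintro ⟨i, R⟩ h ⟨j, R'⟩ h' he
    simp only [coe_sigma, Set.mem_sigma_iff, mem_coe, mem_filter] at h h'
    obtain ⟨hi, hR, hn, hI⟩ := h
    obtain ⟨hi', hR', hn', hI'⟩ := h'
    simp only at he
    by_cases hij : i = j
    · subst hij
      have : R = R' := by
        have h5 := congrArg (fun s => Finset.erase s i) he
        simpa [Finset.erase_insert hn, Finset.erase_insert hn'] using h5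
      subst this; rfl
    · exfalso
      apply hI
      have : insert i R = R ∪ R' := by
        ext y
        simp only [mem_insert, mem_union]
        constructor
        · rintro (h1 | h1)
          · right
            have : y ∈ insert j R' := by rw [← he, h1]; exact mem_insert_self _ _
            rcases mem_insert.1 this with h2 | h2
            · exact absurd (h1.symm.trans h2) hij
            · exact h2
          · exact Or.inl h1
        · rintro (h1 | h1)
          · exact Or.inr h1
          · have : y ∈ insert i R := by rw [he]; exact mem_insert_of_mem h1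
            exact mem_insert.1 this
      rw [this]
      exact hU _ hR _ hR'

lemma card_powerset_filter (N : Finset α) {i : α} (hi : i ∈ N) :
    2 * (N.powerset.filter (fun R => i ∉ R)).card = 2 ^ N.card := by
  have h1 : N.powerset.filter (fun R => i ∉ R) = (N.erase i).powerset := by
    ext R
    simp only [mem_filter, mem_powerset]
    rw [subset_erase]
  rw [h1, card_powerset, card_erase_of_mem hi]
  have : 0 < N.card := card_pos.2 ⟨i, hi⟩
  obtain ⟨m, hm⟩ := Nat.exists_eq_succ_of_ne_zero this.ne'
  rw [hm]; simp [pow_succ, mul_comm]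

lemma incl_excl {β : Type*} (P : Finset β) (a b : β → Prop) [DecidablePred a] [DecidablePred b] :
    (P.filter (fun R => ¬ a R ∧ ¬ b R)).card + (P.filter a).card + (P.filter b).card =
      P.card + (P.filter (fun R => a R ∧ b R)).card := by
  simp only [card_filter, card_eq_sum_ones P, ← sum_add_distrib]
  refine sum_congr rfl fun R _ => ?_
  by_cases ha : a R <;> by_cases hb : b R <;> simp [ha, hb]

/-- inner edges of the complement -/
lemma ie_compl (N : Finset α) (L : Finset (Finset α)) (hL : ∀ R ∈ L, R ⊆ N) {i : α} (hi : i ∈ N) :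
    2 * ie (N.powerset \ L) i + 2 * L.card = 2 ^ N.card + 2 * ie L i := by
  have hc := card_powerset_filter N hi
  set P := N.powerset.filter (fun R => i ∉ R) with hP
  have e1 : (P.filter (fun R => R ∈ L)) = L.filter (fun R => i ∉ R) := by
    ext R
    simp only [hP, mem_filter, mem_powerset]
    constructor
    · rintro ⟨⟨_, h2⟩, h3⟩; exact ⟨h3, h2⟩
    · rintro ⟨h1, h2⟩; exact ⟨⟨hL R h1, h2⟩, h1⟩
  have e2 : (P.filter (fun R => insert i R ∈ L)).card = (L.filter (fun R => i ∈ R)).card := by
    refine card_bij' (fun R _ => insert i R) (fun R _ => R.erase i) ?_ ?_ ?_ ?_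
    · intro R hR
      simp only [hP, mem_filter, mem_powerset] at hR ⊢
      exact ⟨hR.2, mem_insert_self _ _⟩
    · intro R hR
      simp only [hP, mem_filter, mem_powerset] at hR ⊢
      exact ⟨⟨(erase_subset _ _).trans (hL R hR.1), notMem_erase _ _⟩,
        by rw [insert_erase hR.2]; exact hR.1⟩
    · intro R hR
      simp only [hP, mem_filter, mem_powerset] at hR
      exact erase_insert hR.1.2
    · intro R hR
      simp only [mem_filter] at hR
      exact insert_erase hR.2
  have e3 : ie (N.powerset \ L) i = (P.filter (fun R => ¬ (R ∈ L) ∧ ¬ (insert i R ∈ L))).card := by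
    unfold ie
    congr 1
    ext R
    simp only [hP, mem_filter, mem_powerset, mem_sdiff]
    constructor
    · rintro ⟨⟨h1, h2⟩, h3, h4, h5⟩; exact ⟨⟨h1, h3⟩, h2, h5⟩
    · rintro ⟨⟨h1, h3⟩, h2, h5⟩; exact ⟨⟨h1, h2⟩, h3, insert_subset hi h1, h5⟩
  have e4 : ie L i = (P.filter (fun R => R ∈ L ∧ insert i R ∈ L)).card := by
    unfold ie
    congr 1
    ext R
    simp only [hP, mem_filter, mem_powerset]
    constructor
    · rintro ⟨h1, h2, h3⟩; exact ⟨⟨hL R h1, h2⟩, h1, h3⟩
    · rintro ⟨⟨_, h2⟩, h1, h3⟩; exact ⟨h1, h2, h3⟩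
  have i1 := incl_excl P (fun R => R ∈ L) (fun R => insert i R ∈ L)
  have e5 := card_mem_notMem L i
  rw [e1] at i1
  omega

lemma bd_compl (N : Finset α) (L : Finset (Finset α)) (hL : ∀ R ∈ L, R ⊆ N) :
    (N.card : ℤ) * (N.powerset \ L).card - 2 * (∑ i ∈ N, ie (N.powerset \ L) i : ℕ) =
      N.card * L.card - 2 * (∑ i ∈ N, ie L i : ℕ) := by
  have h1 : (N.powerset \ L).card + L.card = 2 ^ N.card := by
    rw [← card_powerset]
    refine card_sdiff_add_card_eq_card ?_
    intro R hR
    exact mem_powerset.2 (hL R hR)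
  have h2 : ∀ i ∈ N, (2 : ℤ) * ie (N.powerset \ L) i = 2 ^ N.card + 2 * ie L i - 2 * L.card := by
    intro i hi
    have := ie_compl N L hL hi
    have h3 : (2 : ℤ) * ie (N.powerset \ L) i + 2 * L.card = 2 ^ N.card + 2 * ie L i := by
      exact_mod_cast this
    linarith
  have h1' : (((N.powerset \ L).card : ℕ) : ℤ) = 2 ^ N.card - L.card := by
    have : (((N.powerset \ L).card : ℕ) : ℤ) + L.card = 2 ^ N.card := by exact_mod_cast h1
    linarith
  push_cast
  rw [mul_sum, sum_congr rfl h2, h1']
  simp only [sum_sub_distrib, sum_add_distrib, sum_const, nsmul_eq_mul, ← mul_sum]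
  ring

end Pool.Agent.N361.CV
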