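import Mathlib

/-!
# The covering criterion for union-closed families: definitions and statements of the parts
-/

set_option autoImplicit false

namespace Pool.Agent.N361.CV

open Finset

variable {α : Type*} [DecidableEq α]

/-- Union-closed families. -/
def UC (F : Finset (Finset α)) : Prop := ∀ A ∈ F, ∀ B ∈ F, A ∪ B ∈ F

/-- the union of the members of `F` contained in `S` -/
def cov (F : Finset (Finset α)) (S : Finset α) : Finset α := (F.filter (fun A => A ⊆ S)).biUnion id

/-- the total number of uncovered elements of the subsets of `N` -/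
def unc (F : Finset (Finset α)) (N : Finset α) : ℕ := ∑ S ∈ N.powerset, (S \ cov F S).card

lemma mem_cov {F : Finset (Finset α)} {S : Finset α} {x : α} :
    x ∈ cov F S ↔ ∃ A ∈ F, A ⊆ S ∧ x ∈ A := by
  simp [cov, and_assoc]

/-- part SUN: sunflowers with the kernels `{x}` -/
def S_SUN : Prop := ∀ (N : Finset ℕ) (F : Finset (Finset ℕ)) (c : ℕ), 1 ≤ c →
  (∀ x ∈ N, ∃ P : Finset (Finset ℕ), P ⊆ F ∧ (∀ A ∈ P, x ∈ A ∧ A ⊆ N) ∧
    (∀ A ∈ P, ∀ B ∈ P, A ≠ B → A ∩ B = {x}) ∧
    Real.log (c * N.card / 2) / 2 ≤ ∑ A ∈ P, (1 / 2 : ℝ) ^ A.card) →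
  c * unc F N ≤ 2 ^ N.card

/-- part RAND: almost all families of `m` sets of size `k` -/
def S_RAND : Prop := ∀ k : ℕ, 1 ≤ k → ∃ n₀ : ℕ, ∀ n ≥ n₀, ∀ m : ℕ,
  (8 : ℝ) ^ k * n * Real.log n ≤ m →
  n * ((powersetCard m (powersetCard k (range n))).filter
    (fun B => 2 ^ n < 5 * unc B (range n))).card ≤
  (powersetCard m (powersetCard k (range n))).card

end Pool.Agent.N361.CV
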