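import Pool.Agent.N361.CV.Core

/-!
# The gap is small when the members of `F` cover (Harris' inequality)
-/

set_option autoImplicit false

namespace Pool.Agent.N361.CV

open Finset

variable {α : Type*} [DecidableEq α]

/-- subsets of `N ∖ x` to which `x` can be added without being covered -/
def DD (K : Finset (Finset α)) (N : Finset α) (x : α) : Finset (Finset α) :=
  (N.erase x).powerset.filter (fun R => ∀ A ∈ K, A ⊆ insert x R → x ∉ A)

/-- subsets of `N ∖ x` that contain no member of `L` -/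
def VV (L : Finset (Finset α)) (N : Finset α) (x : α) : Finset (Finset α) :=
  (N.erase x).powerset.filter (fun R => ∀ B ∈ L, ¬ B ⊆ R)

lemma DD_lower (K : Finset (Finset α)) (N : Finset α) (x : α) :
    IsLowerSet (DD K N x : Set (Finset α)) := by
  intro R R' h hR
  simp only [DD, coe_filter, mem_powerset, Set.mem_ofPred_eq] at hR ⊢
  exact ⟨h.trans hR.1, fun A hA hAR => hR.2 A hA (hAR.trans (insert_subset_insert x h))⟩

lemma VV_lower (L : Finset (Finset α)) (N : Finset α) (x : α) :
    IsLowerSet (VV L N x : Set (Finset α)) := by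
  intro R R' h hR
  simp only [VV, coe_filter, mem_powerset, Set.mem_ofPred_eq] at hR ⊢
  exact ⟨h.trans hR.1, fun B hB hBR => hR.2 B hB (hBR.trans h)⟩

/-- twice the number of subsets of `N ∖ x` in the up-closure is at most its size -/
lemma two_upc (L : Finset (Finset α)) (N : Finset α) {x : α} (hx : x ∈ N) :
    2 ^ N.card ≤ (upc N L).card + 2 * (VV L N x).card := by
  have h1 : 2 * (N.erase x).powerset.card = 2 ^ N.card := by
    rw [card_powerset, card_erase_of_mem hx]
    have : 0 < N.card := card_pos.2 ⟨x, hx⟩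
    obtain ⟨m, hm⟩ := Nat.exists_eq_succ_of_ne_zero this.ne'
    rw [hm]; simp [pow_succ, mul_comm]
  have h2 := Finset.card_filter_add_card_filter_not (s := (N.erase x).powerset)
    (fun R => ∀ B ∈ L, ¬ B ⊆ R)
  set W := (N.erase x).powerset.filter (fun R => ¬ ∀ B ∈ L, ¬ B ⊆ R) with hW
  have hWmem : ∀ R, R ∈ W ↔ R ⊆ N.erase x ∧ ∃ B ∈ L, B ⊆ R := by
    intro R; simp [hW]
  have h3 : 2 * W.card ≤ (upc N L).card := by
    have h4 : W.card ≤ ((upc N L).filter (fun S => x ∉ S)).card := by
      refine card_le_card ?_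
      intro R hR
      rw [hWmem] at hR
      obtain ⟨hR1, B, hB, hBR⟩ := hR
      simp only [upc, mem_filter, mem_powerset]
      rw [subset_erase] at hR1
      exact ⟨⟨hR1.1, B, hB, hBR⟩, hR1.2⟩
    have h5 : W.card ≤ ((upc N L).filter (fun S => x ∈ S)).card := by
      refine card_le_card_of_injOn (fun R => insert x R) ?_ ?_
      · intro R hR
        rw [mem_coe, hWmem] at hR
        obtain ⟨hR1, B, hB, hBR⟩ := hR
        rw [subset_erase] at hR1
        simp only [upc, mem_filter, mem_powerset, coe_filter, Set.mem_ofPred_eq]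
        exact ⟨⟨insert_subset hx hR1.1, B, hB, hBR.trans (subset_insert _ _)⟩, mem_insert_self _ _⟩
      · intro R hR R' hR' he
        rw [mem_coe, hWmem, subset_erase] at hR hR'
        have h5 := congrArg (fun s => Finset.erase s x) he
        simpa [Finset.erase_insert hR.1.2, Finset.erase_insert hR'.1.2] using h5
    have h6 := Finset.card_filter_add_card_filter_not (s := upc N L) (fun S => x ∈ S)
    omega
  have h7 : (VV L N x).card + W.card = (N.erase x).powerset.card := h2
  omega

lemma harris_x (K L : Finset (Finset α)) (N : Finset α) {x : α} (hx : x ∈ N) :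
    (DD K N x \ VV L N x).card * 2 ^ N.card ≤ (DD K N x).card * (upc N L).card := by
  have h1 := IsLowerSet.le_card_inter_finset' (DD_lower K N x) (VV_lower L N x)
    (s := N.erase x) (by intro t ht; simp only [DD, mem_filter, mem_powerset] at ht; exact ht.1)
    (by intro t ht; simp only [VV, mem_filter, mem_powerset] at ht; exact ht.1)
  have h2 : 2 * 2 ^ (N.erase x).card = 2 ^ N.card := by
    rw [card_erase_of_mem hx]
    have : 0 < N.card := card_pos.2 ⟨x, hx⟩
    obtain ⟨m, hm⟩ := Nat.exists_eq_succ_of_ne_zero this.ne'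
    rw [hm]; simp [pow_succ, mul_comm]
  have h3 : (DD K N x \ VV L N x).card + (DD K N x ∩ VV L N x).card = (DD K N x).card :=
    card_sdiff_add_card_inter _ _
  have h4 := two_upc L N hx
  rw [← h2] at h4 ⊢
  set P := 2 ^ (N.erase x).card
  set d := (DD K N x).card
  set v := (VV L N x).card
  set e := (DD K N x ∩ VV L N x).card
  set f := (DD K N x \ VV L N x).card
  set u := (upc N L).card
  -- f * 2P = 2P d - 2P e <= 2 P d - 2 d v <= d u
  have h5 : d * (2 * P) ≤ d * (u + 2 * v) := Nat.mul_le_mul_left d h4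
  nlinarith

lemma gap_cover (K L : Finset (Finset α)) (N : Finset α) (hL : ∀ R ∈ L, R ⊆ N)
    (hK : ∀ A ∈ K, A ⊆ N → ∀ R ∈ L, A ∪ R ∈ L) :
    gap N L ⊆ N.biUnion (fun x => (DD K N x \ VV L N x).image (insert x)) := by
  intro S hS
  simp only [gap, mem_filter, mem_powerset] at hS
  obtain ⟨hSN, hSL, R₀, hR₀, hR₀S⟩ := hS
  -- a maximal member of `L` inside `S`
  obtain ⟨R, hR, hmax⟩ := exists_max_image (L.filter (fun R => R ⊆ S)) card
    ⟨R₀, mem_filter.2 ⟨hR₀, hR₀S⟩⟩
  rw [mem_filter] at hR
  have hne : R ≠ S := by rintro rfl; exact hSL hR.1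
  obtain ⟨x, hxS, hxR⟩ := exists_of_ssubset (hR.2.ssubset_of_ne hne)
  rw [mem_biUnion]
  refine ⟨x, hSN hxS, ?_⟩
  rw [mem_image]
  refine ⟨S.erase x, ?_, insert_erase hxS⟩
  rw [mem_sdiff]
  constructor
  · simp only [DD, mem_filter, mem_powerset]
    refine ⟨erase_subset_erase x hSN, ?_⟩
    rw [insert_erase hxS]
    intro A hA hAS hxA
    have h1 : A ∪ R ∈ L := hK A hA (hAS.trans hSN) R hR.1
    have h2 := hmax (A ∪ R) (mem_filter.2 ⟨h1, union_subset hAS hR.2⟩)
    have h3 : R = A ∪ R := eq_of_subset_of_card_le subset_union_right h2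
    apply hxR
    rw [h3]
    exact mem_union_left _ hxA
  · simp only [VV, mem_filter, mem_powerset, not_and, not_forall, not_not]
    intro _
    refine ⟨R, hR.1, ?_⟩
    rw [subset_erase]
    exact ⟨hR.2, hxR⟩

lemma sum_DD_le (K : Finset (Finset α)) (N : Finset α) :
    ∑ x ∈ N, (DD K N x).card ≤ unc K N := by
  have h1 : unc K N = ∑ x ∈ N, (N.powerset.filter (fun S => x ∈ S \ cov K S)).card := by
    have : ∀ S ∈ N.powerset, (S \ cov K S).card = ∑ x ∈ N, if x ∈ S \ cov K S then 1 else 0 := by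
      intro S hS
      rw [← card_filter, filter_mem_eq_inter, inter_eq_right.2]
      exact sdiff_subset.trans (mem_powerset.1 hS)
    unfold unc
    rw [sum_congr rfl this, sum_comm]
    exact sum_congr rfl fun i _ => (card_filter _ _).symm
  rw [h1]
  refine sum_le_sum fun x hx => ?_
  refine card_le_card_of_injOn (fun R => insert x R) ?_ ?_
  · intro R hR
    simp only [DD, coe_filter, mem_powerset, Set.mem_ofPred_eq, subset_erase] at hR
    simp only [coe_filter, mem_powerset, Set.mem_ofPred_eq, mem_sdiff, mem_cov]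
    refine ⟨insert_subset hx hR.1.1, mem_insert_self _ _, ?_⟩
    rintro ⟨A, hA, hAR, hxA⟩
    exact hR.2 A hA hAR hxA
  · intro R hR R' hR' he
    simp only [DD, coe_filter, mem_powerset, Set.mem_ofPred_eq, subset_erase] at hR hR'
    have h5 := congrArg (fun s => Finset.erase s x) he
    simpa [Finset.erase_insert hR.1.2, Finset.erase_insert hR'.1.2] using h5

theorem gap_le (K L : Finset (Finset α)) (N : Finset α) (hL : ∀ R ∈ L, R ⊆ N)
    (hK : ∀ A ∈ K, A ⊆ N → ∀ R ∈ L, A ∪ R ∈ L) :
    (gap N L).card * 2 ^ N.card ≤ (upc N L).card * unc K N := by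
  have h1 : (gap N L).card ≤ ∑ x ∈ N, (DD K N x \ VV L N x).card := by
    refine (card_le_card (gap_cover K L N hL hK)).trans (card_biUnion_le.trans ?_)
    exact sum_le_sum fun x _ => card_image_le
  calc (gap N L).card * 2 ^ N.card ≤ (∑ x ∈ N, (DD K N x \ VV L N x).card) * 2 ^ N.card :=
        Nat.mul_le_mul_right _ h1
    _ = ∑ x ∈ N, (DD K N x \ VV L N x).card * 2 ^ N.card := by rw [sum_mul]
    _ ≤ ∑ x ∈ N, (DD K N x).card * (upc N L).card := sum_le_sum fun x hx => harris_x K L N hx
    _ = (upc N L).card * ∑ x ∈ N, (DD K N x).card := by rw [← sum_mul, mul_comm]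
    _ ≤ (upc N L).card * unc K N := Nat.mul_le_mul_left _ (sum_DD_le K N)

lemma upc_card (L : Finset (Finset α)) (N : Finset α) (hL : ∀ R ∈ L, R ⊆ N) :
    (upc N L).card = L.card + (gap N L).card := by
  have h1 : upc N L = L ∪ gap N L := by
    ext S
    simp only [upc, gap, mem_filter, mem_powerset, mem_union]
    constructor
    · rintro ⟨h1, h2⟩
      by_cases h : S ∈ L
      · exact Or.inl h
      · exact Or.inr ⟨h1, h, h2⟩
    · rintro (h | ⟨h1, _, h2⟩)
      · exact ⟨hL S h, S, h, Subset.refl _⟩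
      · exact ⟨h1, h2⟩
  rw [h1, card_union_of_disjoint]
  rw [disjoint_left]
  intro S hS hS'
  simp only [gap, mem_filter] at hS'
  exact hS'.2.1 hS

theorem gap_three (K L : Finset (Finset α)) (N : Finset α) (hL : ∀ R ∈ L, R ⊆ N)
    (hK : ∀ A ∈ K, A ⊆ N → ∀ R ∈ L, A ∪ R ∈ L) (hc : 4 * unc K N ≤ 2 ^ N.card) :
    3 * (gap N L).card ≤ L.card := by
  have h1 := gap_le K L N hL hK
  rw [upc_card L N hL] at h1
  have h2 : (4 * (gap N L).card) * 2 ^ N.card ≤ (L.card + (gap N L).card) * 2 ^ N.card := by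
    calc (4 * (gap N L).card) * 2 ^ N.card = 4 * ((gap N L).card * 2 ^ N.card) := by ring
      _ ≤ 4 * ((L.card + (gap N L).card) * unc K N) := Nat.mul_le_mul_left _ h1
      _ = (L.card + (gap N L).card) * (4 * unc K N) := by ring
      _ ≤ _ := Nat.mul_le_mul_left _ hc
  have h3 := Nat.le_of_mul_le_mul_right h2 (by positivity)
  omega

theorem gap_four (K L : Finset (Finset α)) (N : Finset α) (hL : ∀ R ∈ L, R ⊆ N)
    (hK : ∀ A ∈ K, A ⊆ N → ∀ R ∈ L, A ∪ R ∈ L) (hc : 5 * unc K N ≤ 2 ^ N.card) :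
    4 * (gap N L).card ≤ L.card := by
  have h1 := gap_le K L N hL hK
  rw [upc_card L N hL] at h1
  have h2 : (5 * (gap N L).card) * 2 ^ N.card ≤ (L.card + (gap N L).card) * 2 ^ N.card := by
    calc (5 * (gap N L).card) * 2 ^ N.card = 5 * ((gap N L).card * 2 ^ N.card) := by ring
      _ ≤ 5 * ((L.card + (gap N L).card) * unc K N) := Nat.mul_le_mul_left _ h1
      _ = (L.card + (gap N L).card) * (5 * unc K N) := by ring
      _ ≤ _ := Nat.mul_le_mul_left _ hc
  have h3 := Nat.le_of_mul_le_mul_right h2 (by positivity)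
  omega

end Pool.Agent.N361.CV
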