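import Pool.Agent.N361.CV.Num
import Pool.Agent.N361.CV.Harris
import Pool.Agent.N361.FC.Basic

/-!
# The covering criterion
-/

set_option autoImplicit false

namespace Pool.Agent.N361.CV

open Finset
open N361.FC (slice sum_slice slice_union)

variable {α : Type*} [DecidableEq α]

lemma slice_K {F : Finset (Finset α)} (hF : UC F) (N T : Finset α) :
    ∀ A ∈ F, A ⊆ N → ∀ R ∈ slice N F T, A ∪ R ∈ slice N F T := by
  intro A hA hAN R hR
  rw [N361.FC.mem_slice] at hR ⊢
  refine ⟨union_subset hAN hR.1, ?_⟩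
  rw [union_assoc]
  exact hF _ hA _ hR.2

lemma slice_uc {F : Finset (Finset α)} (hF : UC F) (N T : Finset α) : UC (slice N F T) :=
  N361.FC.slice_UC hF T

/-- the sum over the elements of `N` -/
lemma sum_main (F : Finset (Finset α)) (N : Finset α) :
    ∑ T ∈ ((F.biUnion id) \ N).powerset, wt N (slice N F T) =
      ∑ x ∈ N, (2 * ((F.filter (fun S => x ∈ S)).card : ℤ) - F.card) := by
  set L : Finset α := (F.biUnion id) \ N with hL
  have hd : Disjoint N L := disjoint_sdiff
  have hsub : ∀ S ∈ F, S ⊆ N ∪ L := by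
    intro S hS x hx
    by_cases hxV : x ∈ N
    · exact mem_union_left _ hxV
    · exact mem_union_right _ (mem_sdiff.2 ⟨mem_biUnion.2 ⟨S, hS, hx⟩, hxV⟩)
  have hsum := sum_slice N L F hd hsub (fun S => 2 * ((S ∩ N).card : ℤ) - N.card)
  have e0 : ∑ T ∈ L.powerset, wt N (slice N F T) =
      ∑ T ∈ L.powerset, ∑ R ∈ slice N F T, (2 * (((R ∪ T) ∩ N).card : ℤ) - N.card) := by
    refine sum_congr rfl fun T hT => ?_
    rw [mem_powerset] at hT
    have hTV : T ∩ N = ∅ := by
      rw [← disjoint_iff_inter_eq_empty]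
      exact (disjoint_of_subset_right hT hd).symm
    unfold wt
    refine sum_congr rfl fun R hR => ?_
    rw [N361.FC.mem_slice] at hR
    rw [union_inter_distrib_right, hTV, union_empty, inter_eq_left.2 hR.1]
  rw [e0, ← hsum]
  have e1 : ∀ S ∈ F, (2 * ((S ∩ N).card : ℤ) - N.card) =
      ∑ x ∈ N, (2 * (if x ∈ S then 1 else 0) - 1) := by
    intro S _
    rw [sum_sub_distrib, ← mul_sum, sum_boole]
    simp only [sum_const, nsmul_eq_mul, mul_one]
    congr 3
    congr 1
    ext x
    simp only [mem_inter, mem_filter]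
    tauto
  rw [sum_congr rfl e1, sum_comm]
  refine sum_congr rfl fun x _ => ?_
  rw [sum_sub_distrib, ← mul_sum, sum_boole]
  simp

theorem abundant {F : Finset (Finset α)} (hF : UC F) {N : Finset α} (hN : N.Nonempty)
    (hc : 4 * unc F N ≤ 2 ^ N.card) :
    ∃ x ∈ N, F.card ≤ 2 * (F.filter (fun S => x ∈ S)).card := by
  have h1 := sum_main F N
  have h2 : 0 ≤ ∑ x ∈ N, (2 * ((F.filter (fun S => x ∈ S)).card : ℤ) - F.card) := by
    rw [← h1]
    refine sum_nonneg fun T _ => ?_
    have hs : ∀ R ∈ slice N F T, R ⊆ N := fun R hR => (N361.FC.mem_slice.1 hR).1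
    exact wt_nonneg N _ hs (slice_uc hF N T) (gap_three F _ N hs (slice_K hF N T) hc)
  by_contra hcon
  push Not at hcon
  have h3 : ∑ x ∈ N, (2 * ((F.filter (fun S => x ∈ S)).card : ℤ) - F.card) < 0 := by
    apply sum_neg'
    · intro x hx
      have := hcon x hx
      omega
    · obtain ⟨x, hx⟩ := hN
      exact ⟨x, hx, by have := hcon x hx; omega⟩
  omega

theorem strict {F : Finset (Finset α)} (hF : UC F) {N : Finset α}
    (hc : 5 * unc F N ≤ 2 ^ N.card) :
    (∃ x ∈ N, F.card < 2 * (F.filter (fun S => x ∈ S)).card) ∨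
      ∀ S ∈ F, ∀ R ⊆ N, (S \ N) ∪ R ∈ F := by
  have h1 := sum_main F N
  have hs : ∀ T, ∀ R ∈ slice N F T, R ⊆ N := fun T R hR => (N361.FC.mem_slice.1 hR).1
  have hc4 : 4 * unc F N ≤ 2 ^ N.card := by omega
  by_cases hall : ∀ S ∈ F, ∀ R ⊆ N, (S \ N) ∪ R ∈ F
  · exact Or.inr hall
  left
  push Not at hall
  obtain ⟨S, hS, R, hR, hSR⟩ := hall
  have hpos : 0 < ∑ T ∈ ((F.biUnion id) \ N).powerset, wt N (slice N F T) := by
    apply sum_pos'
    · intro T _
      exact wt_nonneg N _ (hs T) (slice_uc hF N T) (gap_three F _ N (hs T) (slice_K hF N T) hc4)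
    · refine ⟨S \ N, ?_, ?_⟩
      · rw [mem_powerset]
        exact sdiff_subset_sdiff (subset_biUnion_of_mem id hS) (Subset.refl _)
      · apply wt_pos N _ (hs _) (slice_uc hF N _) (gap_four F _ N (hs _) (slice_K hF N _) hc)
        · refine ⟨S ∩ N, ?_⟩
          rw [N361.FC.mem_slice]
          refine ⟨inter_subset_right, ?_⟩
          have : S ∩ N ∪ S \ N = S := by
            ext y; simp only [mem_union, mem_inter, mem_sdiff]; tauto
          rw [this]; exact hS
        · refine ⟨R, ?_⟩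
          rw [mem_sdiff, mem_powerset, N361.FC.mem_slice]
          refine ⟨hR, fun h => hSR ?_⟩
          rw [union_comm]; exact h.2
  rw [h1] at hpos
  by_contra hcon
  push Not at hcon
  have h3 : ∑ x ∈ N, (2 * ((F.filter (fun S => x ∈ S)).card : ℤ) - F.card) ≤ 0 := by
    apply sum_nonpos
    intro x hx
    have := hcon x hx
    omega
  omega

end Pool.Agent.N361.CV
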