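import Pool.Agent.N361.CV.Core

/-!
# The numerical part: the edge boundary beats the gap
-/

set_option autoImplicit false

namespace Pool.Agent.N361.CV

open Finset Real

/-- `μ log (1/μ) ≥ (log 2) / 2` for `1/4 ≤ μ ≤ 1/2`, in homogeneous form. -/
lemma mid {T m : ℝ} (hT : 0 < T) (h1 : T ≤ 4 * m) (h2 : 2 * m ≤ T) :
    T * (log 2 / 2) ≤ m * log (T / m) := by
  have hm : 0 < m := by linarith
  set μ := m / T with hμ
  have hμ1 : 1 / 4 ≤ μ := by rw [hμ, le_div_iff₀ hT]; linarith
  have hμ2 : μ ≤ 1 / 2 := by rw [hμ, div_le_iff₀ hT]; linarith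
  have hc := Real.concaveOn_negMulLog.2
    (show (1 / 4 : ℝ) ∈ Set.Ici (0 : ℝ) by norm_num) (show (1 / 2 : ℝ) ∈ Set.Ici (0 : ℝ) by norm_num)
    (show (0 : ℝ) ≤ 2 - 4 * μ by linarith) (show (0 : ℝ) ≤ 4 * μ - 1 by linarith) (by ring)
  simp only [smul_eq_mul] at hc
  have e : (2 - 4 * μ) * (1 / 4) + (4 * μ - 1) * (1 / 2) = μ := by ring
  rw [e] at hc
  have l4 : log (1 / 4 : ℝ) = - (2 * log 2) := by
    rw [one_div, Real.log_inv, show (4 : ℝ) = 2 ^ 2 by norm_num, Real.log_pow]; push_cast; ring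
  have l2 : log (1 / 2 : ℝ) = - log 2 := by rw [one_div, Real.log_inv]
  simp only [Real.negMulLog, l4, l2] at hc
  have h3 : log 2 / 2 ≤ - μ * log μ := by nlinarith
  have h4 : log (T / m) = - log μ := by
    rw [hμ, Real.log_div hT.ne' hm.ne', Real.log_div hm.ne' hT.ne']; ring
  rw [h4]
  have h5 := mul_le_mul_of_nonneg_left h3 hT.le
  have h6 : T * (-μ * log μ) = m * (- log μ) := by
    rw [hμ]; field_simp
  linarith

lemma num {T l m a B : ℝ} (hT : T = l + m) (hl : 0 ≤ l) (ha : 0 ≤ a) (ham : a ≤ m)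
    (h3 : 3 * a ≤ l) (hB1 : l * log (T / l) ≤ B * log 2) (hB2 : m * log (T / m) ≤ B * log 2) :
    2 * a ≤ B := by
  have hl2 : 0 < log 2 := Real.log_pos (by norm_num)
  have hm : 0 ≤ m := ha.trans ham
  rcases hl.eq_or_lt with hl0 | hl0
  · have ha0 : a = 0 := by linarith
    have : 0 ≤ B * log 2 := by rw [← hl0] at hB1; simpa using hB1
    have := nonneg_of_mul_nonneg_left this hl2
    linarith
  rcases hm.eq_or_lt with hm0 | hm0
  · have ha0 : a = 0 := by linarith
    have : 0 ≤ B * log 2 := by rw [← hm0] at hB2; simpa using hB2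
    have := nonneg_of_mul_nonneg_left this hl2
    linarith
  have hT0 : 0 < T := by linarith
  rcases le_or_gt (2 * l) T with c1 | c1
  · have h4 : log 2 ≤ log (T / l) := by
      apply Real.log_le_log (by norm_num)
      rw [le_div_iff₀ hl0]; linarith
    have h5 : l * log 2 ≤ B * log 2 := (mul_le_mul_of_nonneg_left h4 hl).trans hB1
    have h6 := le_of_mul_le_mul_right h5 hl2
    linarith
  rcases le_or_gt (4 * m) T with c2 | c2
  · have h4 : 2 * log 2 ≤ log (T / m) := by
      rw [show 2 * log 2 = log 4 by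
        rw [show (4 : ℝ) = 2 ^ 2 by norm_num, Real.log_pow]; push_cast; ring]
      apply Real.log_le_log (by norm_num)
      rw [le_div_iff₀ hm0]; linarith
    have h5 : m * (2 * log 2) ≤ B * log 2 := (mul_le_mul_of_nonneg_left h4 hm).trans hB2
    have h5' : (2 * m) * log 2 ≤ B * log 2 := by linarith
    have h6 := le_of_mul_le_mul_right h5' hl2
    linarith
  · have h4 := (mid hT0 c2.le (by linarith)).trans hB2
    have h5' : (T / 2) * log 2 ≤ B * log 2 := by linarith
    have h6 := le_of_mul_le_mul_right h5' hl2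
    linarith

lemma num_strict {T l m a B : ℝ} (hT : T = l + m) (hl : 0 < l) (hm : 0 < m) (ha : 0 ≤ a)
    (ham : a ≤ m) (h4 : 4 * a ≤ l) (hB1 : l * log (T / l) ≤ B * log 2)
    (hB2 : m * log (T / m) ≤ B * log 2) : 2 * a < B := by
  have hl2 : 0 < log 2 := Real.log_pos (by norm_num)
  have hT0 : 0 < T := by linarith
  rcases le_or_gt (2 * l) T with c1 | c1
  · have h4 : log 2 ≤ log (T / l) := by
      apply Real.log_le_log (by norm_num)
      rw [le_div_iff₀ hl]; linarith
    have h5 : l * log 2 ≤ B * log 2 := (mul_le_mul_of_nonneg_left h4 hl.le).trans hB1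
    have h6 := le_of_mul_le_mul_right h5 hl2
    linarith
  rcases lt_or_ge (4 * m) T with c2 | c2
  · have h4 : 2 * log 2 < log (T / m) := by
      rw [show 2 * log 2 = log 4 by
        rw [show (4 : ℝ) = 2 ^ 2 by norm_num, Real.log_pow]; push_cast; ring]
      apply Real.log_lt_log (by norm_num)
      rw [lt_div_iff₀ hm]; linarith
    have h5 : m * (2 * log 2) < B * log 2 := (mul_lt_mul_of_pos_left h4 hm).trans_le hB2
    have h5' : (2 * m) * log 2 < B * log 2 := by linarith
    have h6 := lt_of_mul_lt_mul_right h5' hl2.le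
    linarith
  · have h4 := (mid hT0 c2 (by linarith)).trans hB2
    have h5' : (T / 2) * log 2 ≤ B * log 2 := by linarith
    have h6 := le_of_mul_le_mul_right h5' hl2
    linarith

variable {α : Type*} [DecidableEq α]

lemma bd_log (N : Finset α) (G : Finset (Finset α)) :
    (G.card : ℝ) * log (2 ^ N.card / G.card) ≤
      ((((N.card : ℤ) * G.card - 2 * (∑ i ∈ N, ie G i : ℕ) : ℤ)) : ℝ) * log 2 := by
  have h := iso N G
  rcases Nat.eq_zero_or_pos G.card with h0 | h0
  · have hG : G = ∅ := card_eq_zero.1 h0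
    subst hG
    simp [ie]
  · have hG : (0 : ℝ) < G.card := by exact_mod_cast h0
    rw [Real.log_div (by positivity) hG.ne', Real.log_pow]
    push_cast at h ⊢
    linarith

lemma gap_subset (N : Finset α) (L : Finset (Finset α)) : gap N L ⊆ N.powerset \ L := by
  intro S hS
  simp only [gap, mem_filter, mem_sdiff] at hS ⊢
  exact ⟨hS.1, hS.2.1⟩

lemma card_total (N : Finset α) (L : Finset (Finset α)) (hL : ∀ R ∈ L, R ⊆ N) :
    ((2 : ℝ) ^ N.card) = L.card + (N.powerset \ L).card := by
  have h1 : (N.powerset \ L).card + L.card = 2 ^ N.card := by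
    rw [← card_powerset]
    refine card_sdiff_add_card_eq_card ?_
    intro R hR
    exact mem_powerset.2 (hL R hR)
  have h2 : (((N.powerset \ L).card : ℕ) : ℝ) + L.card = 2 ^ N.card := by exact_mod_cast h1
  linarith

theorem wt_nonneg (N : Finset α) (L : Finset (Finset α)) (hL : ∀ R ∈ L, R ⊆ N) (hU : UC L)
    (h3 : 3 * (gap N L).card ≤ L.card) : 0 ≤ wt N L := by
  have h1 := wt_eq N L hL
  have h2 := sum_up_le N L hL hU
  set B : ℤ := (N.card : ℤ) * L.card - 2 * (∑ i ∈ N, ie L i : ℕ) with hB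
  have b1 := bd_log N L
  have b2 := bd_log N (N.powerset \ L)
  rw [bd_compl N L hL] at b2
  rw [← hB] at b1 b2
  have ham : (gap N L).card ≤ (N.powerset \ L).card := card_le_card (gap_subset N L)
  have := num (T := 2 ^ N.card) (l := L.card) (m := (N.powerset \ L).card)
    (a := (gap N L).card) (B := (B : ℝ)) (card_total N L hL) (by positivity) (by positivity)
    (by exact_mod_cast ham) (by exact_mod_cast h3) b1 b2
  have h5 : 2 * ((gap N L).card : ℤ) ≤ B := by exact_mod_cast this
  rw [h1]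
  have h2' : ((∑ i ∈ N, up L i : ℕ) : ℤ) ≤ (gap N L).card := by exact_mod_cast h2
  linarith

theorem wt_pos (N : Finset α) (L : Finset (Finset α)) (hL : ∀ R ∈ L, R ⊆ N) (hU : UC L)
    (h4 : 4 * (gap N L).card ≤ L.card) (hne : L.Nonempty) (hne' : (N.powerset \ L).Nonempty) :
    0 < wt N L := by
  have h1 := wt_eq N L hL
  have h2 := sum_up_le N L hL hU
  set B : ℤ := (N.card : ℤ) * L.card - 2 * (∑ i ∈ N, ie L i : ℕ) with hB
  have b1 := bd_log N L
  have b2 := bd_log N (N.powerset \ L)
  rw [bd_compl N L hL] at b2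
  rw [← hB] at b1 b2
  have ham : (gap N L).card ≤ (N.powerset \ L).card := card_le_card (gap_subset N L)
  have := num_strict (T := 2 ^ N.card) (l := L.card) (m := (N.powerset \ L).card)
    (a := (gap N L).card) (B := (B : ℝ)) (card_total N L hL)
    (by exact_mod_cast card_pos.2 hne) (by exact_mod_cast card_pos.2 hne') (by positivity)
    (by exact_mod_cast ham) (by exact_mod_cast h4) b1 b2
  have h5 : 2 * ((gap N L).card : ℤ) < B := by exact_mod_cast this
  rw [h1]
  have h2' : ((∑ i ∈ N, up L i : ℕ) : ℤ) ≤ (gap N L).card := by exact_mod_cast h2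
  linarith

end Pool.Agent.N361.CV
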